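import Pool.Agent.H.MP_7c40ec_lc.Link

namespace Pool.Agent.Results.MP_6b7d8e_lc.No

open Finset Filter Pool.Agent.H.MP_7c40ec_lc

abbrev Str := List Bool

def PrefFree (U : Str × Str →. Str) : Prop :=
  ∀ y p q, (U (p, y)).Dom → (U (q, y)).Dom → p <+: q → p = q

def PrefStable (U : Str × Str →. Str) : Prop := ∀ y p q x, x ∈ U (p, y) → p <+: q → x ∈ U (q, y)

def Admissible (K : Str → Str → ℕ) : Prop :=
  (∃ f : ℕ × Str × Str → ℕ, Computable f ∧ ∀ x y, Antitone (fun n => f (n, x, y)) ∧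
    ∀ᶠ n in atTop, f (n, x, y) = K x y) ∧ ∀ y (F : Finset Str), ∑ x ∈ F, (1 / 2 : ℝ) ^ K x y ≤ 1

def Realizes (U : Str × Str →. Str) (K : Str → Str → ℕ) : Prop :=
  ∀ x y, IsLeast {n | ∃ p : Str, p.length = n ∧ x ∈ U (p, y)} (K x y)

set_option synthInstance.maxSize 1000 in
theorem fin : ∀ p : Fin 3 → Fin 3 → Bool, ∃ a b : Fin 3, a ≠ b ∧ ((∀ i j, i ≠ j → p i ≠ p j) →
    ∀ u v w : Bool, ¬ ((∀ j ≠ a, u ≠ p j 0) ∧ u ≠ v ∧ ∀ j ≠ b, ¬ (v = p j 0 ∧ w = p j 1))) := by
  decide +kernel

def X : Fin 3 → Str := ![[], [false], [true]]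

def k0 (n : ℕ) : ℕ := if n ≤ 1 then 3 else 2 * n + 2

theorem k0_sum (F : Finset Str) : ∑ x ∈ F, (1 / 2 : ℝ) ^ k0 x.length ≤ 1 / 2 := by
  have h : ∀ M, ∑ n ∈ range (M + 2), (2 : ℝ) ^ n * (1 / 2) ^ k0 n = 1 / 2 - (1 / 2) ^ (M + 3) := by
    intro M
    induction M with
    | zero => simp [sum_range_succ, k0]; norm_num
    | succ M ih =>
      rw [sum_range_succ, ih, k0, if_neg (by omega), show 2 * (M + 2) + 2 = (M + 2) + (M + 4) by ring,
        pow_add _ (M + 2), ← mul_assoc, ← mul_pow]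
      ring
  rw [← sum_fiberwise_of_maps_to (g := List.length) (t := range (F.sup List.length + 2)) fun x hx =>
    mem_range.2 (by have := le_sup (f := List.length) hx; omega)]
  refine (sum_le_sum fun n _ => ?_).trans ((h _).le.trans (by simp))
  rw [sum_congr rfl (g := fun _ => (1 / 2 : ℝ) ^ k0 n) fun x hx => by rw [(mem_filter.1 hx).2],
    sum_const, nsmul_eq_mul]
  gcongr
  exact_mod_cast (card_le_card fun x hx => mem_B.2 (mem_filter.1 hx).2).trans_eq (card_B n)

theorem result : ∃ K, Admissible K ∧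
    ∀ U : Str × Str →. Str, Partrec U → PrefFree U ∨ PrefStable U → ¬ Realizes U K := by
  classical
  choose a b hab hp using fin
  obtain ⟨W, w1, w2⟩ := univ_ex (Str × Str) Str
  obtain ⟨N, h1, h2, h3⟩ := graph_approx w1
  let N' : Str × (Fin 3 → Fin 3 → Bool) → ℕ → Prop := fun z t =>
    ∀ i, N ((z.1.length, List.ofFn (z.2 i), z.1), X i) t
  have n0 : ∀ i, PrimrecPred fun q : (Str × (Fin 3 → Fin 3 → Bool)) × ℕ =>
      N ((q.1.1.length, List.ofFn (q.1.2 i), q.1.1), X i) q.2 := fun i => by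
    have e1 : Primrec fun q : (Str × (Fin 3 → Fin 3 → Bool)) × ℕ => q.1.1 := Primrec.fst.comp .fst
    have e2 := (Primrec.dom_finite fun p : Fin 3 → Fin 3 → Bool => List.ofFn (p i)).comp
      (Primrec.snd.comp (Primrec.fst (α := Str × (Fin 3 → Fin 3 → Bool)) (β := ℕ)))
    exact (h1.comp (((Primrec.list_length.comp e1).pair (e2.pair e1)).pair (.const (X i))) .snd).of_eq
      fun _ => Iff.rfl
  have n1 : PrimrecRel N' := ((n0 0).and ((n0 1).and (n0 2))).of_eq fun _ => by
    simp [N', Fin.forall_fin_succ]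
  have n2 : PrimrecRel fun _ _ : Fin 3 → Fin 3 → Bool => False :=
    (Primrec.eq.comp (.const 0) (.const 1)).of_eq fun _ => by simp
  obtain ⟨L, hL⟩ : ∃ L : Str → ℕ → List (Fin 3 → Fin 3 → Bool),
    ∀ y n, L y n = en N' (fun _ _ => False) y n := ⟨_, fun _ _ => rfl⟩
  let K1 : (Fin 3 → Fin 3 → Bool) → Str → ℕ := fun p x =>
    if x = X (a p) then 1 else if x = X (b p) then 2 else k0 x.length
  let f : ℕ × Str × Str → ℕ := fun z =>
    Option.casesOn (L z.2.2 z.1).head? (k0 z.2.1.length) fun p => K1 p z.2.1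
  have pf : Primrec f := by
    have e0 : Primrec fun x : Str => k0 x.length := Primrec.ite
      (Primrec.nat_le.comp Primrec.list_length (.const 1)) (.const 3)
      (Primrec.nat_add.comp (Primrec.nat_double.comp Primrec.list_length) (.const 2))
    have e1 : Primrec fun z : ℕ × Str × Str => z.2.1 := Primrec.fst.comp .snd
    have e2 : Primrec fun z : (ℕ × Str × Str) × (Fin 3 → Fin 3 → Bool) => z.1.2.1 := e1.comp .fst
    have e3 := Primrec.ite (Primrec.eq.comp e2 ((Primrec.dom_finite fun p => X (a p)).comp .snd))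
      (.const 1) (Primrec.ite (Primrec.eq.comp e2 ((Primrec.dom_finite fun p => X (b p)).comp .snd))
      (.const 2) (e0.comp e2))
    have e4 : Primrec fun z : ℕ × Str × Str => L z.2.2 z.1 :=
      ((prim_en N' _ n1 n2).comp (Primrec.snd.comp .snd) .fst).of_eq fun _ => (hL _ _).symm
    exact Primrec.option_casesOn (Primrec.list_head?.comp e4) (e0.comp e1)
      (g := fun z p => K1 p z.2.1) (e3.of_eq fun _ => by simp [K1])
  have st : ∀ y n p, (L y n).head? = some p → ∀ m ≥ n, (L y m).head? = some p := by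
    intro y n p h m hm
    simp only [hL, List.head?_eq_getElem?] at *
    exact (en_get N' _ y hm h).1
  have le : ∀ p x, K1 p x ≤ k0 x.length := fun p x => by
    simp only [K1, k0]
    split_ifs <;> omega
  let K : Str → Str → ℕ := fun x y =>
    if h : ∃ p n, (L y n).head? = some p then K1 h.choose x else k0 x.length
  refine ⟨K, ⟨⟨f, pf.to_comp, fun x y => ⟨fun n m hm => ?_, ?_⟩⟩, fun y F => ?_⟩, fun U u1 u2 u3 => ?_⟩
  · rcases e : (L y n).head? with _ | p
    · rcases e' : (L y m).head? with _ | p <;> simp [f, e, e', le]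
    · simp [f, e, st y n p e m hm]
  · by_cases h : ∃ p n, (L y n).head? = some p
    · obtain ⟨n, hn⟩ := h.choose_spec
      filter_upwards [eventually_ge_atTop n] with m hm
      simp only [f, K, dif_pos h, st y n _ hn m hm]
    · refine Eventually.of_forall fun n => ?_
      rcases e : (L y n).head? with _ | p
      · simp only [f, K, dif_neg h, e]
      · exact absurd ⟨p, n, e⟩ h
  · by_cases h : ∃ p n, (L y n).head? = some p
    · simp only [K, dif_pos h]
      generalize h.choose = p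
      have : ∀ x ∈ F, (1 / 2 : ℝ) ^ K1 p x ≤ (if x = X (a p) then 3 / 8 else 0) +
          (if x = X (b p) then 1 / 8 else 0) + (1 / 2) ^ k0 x.length := fun x _ => by
        have e : ∀ i, k0 (X i).length = 3 := by decide
        simp only [K1]
        split_ifs with c1 c2 c2 <;> (try rw [c1, e]) <;> (try rw [c2, e]) <;> norm_num
      refine (sum_le_sum this).trans ?_
      rw [sum_add_distrib, sum_add_distrib, sum_ite_eq', sum_ite_eq']
      have := k0_sum F
      split_ifs <;> linarith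
    · simp only [K, dif_neg h]
      linarith [k0_sum F]
  obtain ⟨e, he⟩ := w2 U u1
  have con : ∀ y p q x x', x ∈ U (p, y) → x' ∈ U (q, y) → p <+: q → x = x' := by
    intro y p q x x' c1 c2 c3
    rcases u2 with u2 | u2
    · exact Part.mem_unique c1 (u2 y p q c1.1 c2.1 c3 ▸ c2)
    · exact Part.mem_unique (u2 y p q x c1 c3) c2
  have ey : (un e).length = e := by simp [un]
  have Xi : Function.Injective X := by decide
  have h : ∃ p n, (L (un e) n).head? = some p := by
    by_contra h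
    have : ∀ i, ∃ p : Fin 3 → Bool, X i ∈ U (List.ofFn p, un e) := fun i => by
      obtain ⟨q, q1, q2⟩ := (u3 (X i) (un e)).1
      simp only [K, dif_neg h, show ∀ i, k0 (X i).length = 3 by decide] at q1
      obtain ⟨p, -, rfl⟩ := mem_image.1 (mem_B.2 q1)
      exact ⟨p, q2⟩
    choose p hp using this
    obtain ⟨t, ht⟩ := en_all N' (fun _ _ => False) (un e) p (eventually_all.2 fun i =>
      h3 ((_, _, _), _) (by rw [ey]; exact (he _ _).2 (hp i)))
    rw [← hL] at ht
    rcases e' : L (un e) t with _ | ⟨z, l⟩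
    · simp [e'] at ht
    · exact h ⟨z, t, by simp [e']⟩
  obtain ⟨n, hn⟩ := h.choose_spec
  have k1 := (u3 (X (a h.choose)) (un e)).1
  have k2 := (u3 (X (b h.choose)) (un e)).1
  simp only [K, dif_pos h] at k1 k2
  generalize h.choose = p at hn k1 k2
  obtain ⟨t, ht⟩ := (en_inv N' (fun _ _ => False) (un e) n).2 p (hL _ _ ▸ List.mem_of_head? hn)
  have k3 : ∀ i, X i ∈ U (List.ofFn (p i), un e) := fun i => (he _ _).1 (by
    have := h2 _ _ (ht i)
    rwa [ey] at this)
  simp only [K1, if_true, Xi.eq_iff, (hab p).symm, if_false] at k1 k2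
  obtain ⟨q1, c1, k1⟩ := k1
  obtain ⟨q2, c2, k2⟩ := k2
  obtain ⟨u, rfl⟩ := List.length_eq_one_iff.1 c1
  obtain ⟨v, w, rfl⟩ := List.length_eq_two.1 c2
  refine hp p (fun i j hij e => hij (Xi (Part.mem_unique (k3 i) (e ▸ k3 j)))) u v w
    ⟨fun j hj e => hj (Xi (con _ _ _ _ _ k1 (k3 j) ?_)).symm,
      fun e => hab p (Xi (con _ _ _ _ _ k1 k2 ?_)),
      fun j hj e => hj (Xi (con _ _ _ _ _ k2 (k3 j) ?_)).symm⟩ <;> simp [e, List.ofFn_succ]

end Pool.Agent.Results.MP_6b7d8e_lc.No
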